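import Pool.Agent.W587.MX.Stm

set_option autoImplicit false

namespace Pool.Agent.W356.MX

open Pool.Agent.W587.MX
open Set Filter Topology Metric

theorem red : P7_RED := by
  intro f hf hnot
  have hA : AnalyticAt ℂ f 0 := hf.analyticAt 0
  have hne : ¬ ∀ᶠ z in 𝓝 (0 : ℂ), f z = 0 := by
    intro h
    apply hnot
    refine ⟨0, 0, fun z => ?_⟩
    have h1 : AnalyticOnNhd ℂ f Set.univ := fun z _ => hf.analyticAt z
    have h2 : AnalyticOnNhd ℂ (fun _ : ℂ => (0 : ℂ)) Set.univ := fun z _ => analyticAt_const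
    have h3 := h1.eq_of_eventuallyEq h2 (z₀ := 0) h
    rw [h3]
    simp
  obtain ⟨k, h, hh, hh0, hev⟩ := hA.exists_eventuallyEq_pow_smul_nonzero_iff.mpr hne
  have hev' : ∀ᶠ z in 𝓝 (0 : ℂ), f z = z ^ k * h z := by
    filter_upwards [hev] with z hz
    rw [hz, sub_zero, smul_eq_mul]
  classical
  set g0 : ℂ → ℂ := fun z => if z = 0 then h 0 else f z / z ^ k with hg0
  have hg00 : g0 0 = h 0 := by rw [hg0]; exact if_pos rfl
  have hg0z : ∀ z, z ≠ 0 → g0 z = f z / z ^ k := fun z hz => by rw [hg0]; exact if_neg hz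
  have hd0 : Differentiable ℂ g0 := by
    intro z
    by_cases hz : z = 0
    · subst hz
      apply hh.differentiableAt.congr_of_eventuallyEq
      filter_upwards [hev'] with w hw
      by_cases hw0 : w = 0
      · rw [hw0, hg00]
      · rw [hg0z w hw0, hw, mul_div_cancel_left₀ _ (pow_ne_zero k hw0)]
    · have h1 : DifferentiableAt ℂ (fun w => f w / w ^ k) z :=
        (hf z).div (differentiableAt_id.pow k) (pow_ne_zero k hz)
      apply h1.congr_of_eventuallyEq
      filter_upwards [isOpen_ne.mem_nhds hz] with w hw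
      exact hg0z w hw
  set g : ℂ → ℂ := fun z => g0 z / h 0 with hg
  have hgd : Differentiable ℂ g := fun z => (hd0 z).div_const _
  have hg1 : g 0 = 1 := by
    show g0 0 / h 0 = 1
    rw [hg00, div_self hh0]
  have hfg : ∀ z, f z = h 0 * z ^ k * g z := by
    intro z
    by_cases hz : z = 0
    · subst hz
      rw [hg1, hev'.self_of_nhds]
      ring
    · show f z = h 0 * z ^ k * (g0 z / h 0)
      rw [hg0z z hz]
      have := pow_ne_zero k hz
      field_simp
  refine ⟨g, hgd, hg1, ?_, ?_⟩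
  · by_contra hcon
    push Not at hcon
    apply hnot
    refine ⟨h 0, k, fun z => ?_⟩
    have h1 := is_const_of_deriv_eq_zero hgd hcon z 0
    rw [hfg z, h1, hg1, mul_one]
  · intro r hr
    have hC : 0 < ‖h 0‖ * r ^ k := mul_pos (norm_pos_iff.mpr hh0) (pow_pos hr k)
    have hn : ∀ w : ℂ, ‖w‖ = r → ‖f w‖ = ‖h 0‖ * r ^ k * ‖g w‖ := by
      intro w hw
      rw [hfg w, norm_mul, norm_mul, norm_pow, hw]
    ext z
    constructor
    · rintro ⟨hz, hmax⟩
      refine ⟨hz, fun w hw => ?_⟩
      have h1 := hmax w hw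
      rw [hn w hw, hn z hz] at h1
      exact le_of_mul_le_mul_left h1 hC
    · rintro ⟨hz, hmax⟩
      refine ⟨hz, fun w hw => ?_⟩
      rw [hn w hw, hn z hz]
      exact mul_le_mul_of_nonneg_left (hmax w hw) hC.le

end Pool.Agent.W356.MX
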